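import Pool.Agent.H820R2.MS.FinalQ
import Pool.Agent.H820R2.MS.T9Q

/-!
# Euclidean Max-Scatter-TSP in the plane is NP-complete

Given points of the plane with rational coordinates and a rational number `L`, it is NP-complete to
decide whether the points have a round-trip all of whose edges have Euclidean length at least `L`.

The reduction is from 3SAT.  Two clusters of points at distance about `L` form a bipartite graph
of far pairs; it is the graph of a light cone order on a grid of levels and positions.  A counting
argument shows that a Hamiltonian cycle of such a graph consists of strands which move upwards
level by level, and which may be exchanged only at prescribed places; the exchanges have to connect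
all closed strands without conflicts, and this is possible iff the formula is satisfiable.
-/

namespace Pool.Agent.Results.MP_05e6f5_lc.NPCompleteRational

open Pool.Agent.NPC Pool.Agent.H820R2.MS

/-- The decision version of the Euclidean Max-Scatter-TSP in the plane, for points with rational
coordinates and a rational bound, is in `NP`, and it is `NP`-hard. -/
theorem result : InNPP MaxScatterQ ∧ NPHardP MaxScatterQ :=
  ⟨inNP_maxScatterQ, npHard_maxScatterQ⟩

end Pool.Agent.Results.MP_05e6f5_lc.NPCompleteRational
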